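import Pool.Agent.V11202.KS.Ex

set_option autoImplicit false
set_option linter.unnecessarySeqFocus false
set_option linter.unusedSimpArgs false
set_option linter.unreachableTactic false
set_option linter.unusedTactic false

open scoped ContDiff Topology
open Pool.Agent.V11202.CK

namespace Pool.Agent.V11202.KS

theorem pd_ex (l k : Fin 4) (c a : ℝ) (x : Eu 4) :
    pd l (ex c a k) x = if l = k then c * (a * Real.exp (a * x k)) else 0 := pd_exp l k c a x

theorem dif_ex (k : Fin 4) (c a : ℝ) : Differentiable ℝ (ex c a k) := dif_exp k c a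

/-- projection to the first factor -/
noncomputable def c1 (α μ : Fin 4) : ℝ := if α = μ ∧ (α = 0 ∨ α = 1) then 1 else 0
/-- projection to the second factor -/
noncomputable def c2 (α μ : Fin 4) : ℝ := if α = μ ∧ (α = 2 ∨ α = 3) then 1 else 0
/-- metric of the first factor -/
noncomputable def g1 (β ν : Fin 4) : Eu 4 → ℝ :=
  if β = 0 ∧ ν = 0 then ex 1 (-1) 0 else if β = 1 ∧ ν = 1 then ex 1 3 0 else ex 0 0 0
/-- metric of the second factor -/
noncomputable def g2 (β ν : Fin 4) : Eu 4 → ℝ :=
  if β = 2 ∧ ν = 2 then ex 1 0 0 else if β = 3 ∧ ν = 3 then ex 1 2 2 else ex 0 0 0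

/-- `P^α_{βμν} = c^α_μ g_{βν} - c^α_ν g_{βμ}` -/
noncomputable def PT (c : Fin 4 → Fin 4 → ℝ) (g : Fin 4 → Fin 4 → Eu 4 → ℝ) : Tens 4 :=
  fun α I x => match I with
  | [β, μ, ν] => c α μ * g β ν x - c α ν * g β μ x
  | _ => 0

/-- curvature of the surface -/
noncomputable def Kf : Eu 4 → ℝ := ex (-3) 1 0

theorem Riem_gE (α β μ ν : Fin 4) (x : Eu 4) : Riem gE α β μ ν x =
    Kf x * (c1 α μ * g1 β ν x - c1 α ν * g1 β μ x) - (c2 α μ * g2 β ν x - c2 α ν * g2 β μ x) := by
  have e1 : Real.exp (x 0) * Real.exp (-x 0) = 1 := by rw [← Real.exp_add]; simp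
  have e2 : Real.exp (x 0) * Real.exp (3 * x 0) = Real.exp (4 * x 0) := by
    rw [← Real.exp_add]; ring_nf
  simp only [Riem, Gam_gE, Fin.sum_univ_four]
  fin_cases α <;> fin_cases β <;> fin_cases μ <;> fin_cases ν <;>
    simp [gam, pd_ex, c1, c2, g1, g2, Kf] <;> simp [ex] <;>
    first
    | ring1
    | linear_combination 3 * e1
    | linear_combination -3 * e1
    | linear_combination 3 * e2
    | linear_combination -3 * e2

theorem RT_gE : RT gE = fun α I x => fT Kf (PT c1 g1) α I x - PT c2 g2 α I x := by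
  funext α I x
  match I with
  | [] => simp [RT, fT, PT]
  | [_] => simp [RT, fT, PT]
  | [_, _] => simp [RT, fT, PT]
  | [β, μ, ν] => simp only [RT, fT, PT]; exact Riem_gE α β μ ν x
  | _ :: _ :: _ :: _ :: _ => simp [RT, fT, PT]

/-- `c` is parallel -/
def CPar (c : Fin 4 → Fin 4 → ℝ) : Prop := ∀ (l α μ : Fin 4) (x : Eu 4),
  ∑ σ, gam α l σ x * c σ μ - ∑ σ, gam σ l μ x * c α σ = 0

/-- `g` is parallel -/
def GPar (g : Fin 4 → Fin 4 → Eu 4 → ℝ) : Prop := ∀ (l a b : Fin 4) (x : Eu 4),
  pd l (g a b) x - ∑ σ, gam σ l a x * g σ b x - ∑ σ, gam σ l b x * g a σ x = 0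

theorem c1_par : CPar c1 := by
  intro l α μ x
  simp only [Fin.sum_univ_four]
  fin_cases l <;> fin_cases α <;> fin_cases μ <;> simp [gam, c1] <;> simp [ex]

theorem c2_par : CPar c2 := by
  intro l α μ x
  simp only [Fin.sum_univ_four]
  fin_cases l <;> fin_cases α <;> fin_cases μ <;> simp [gam, c2] <;> simp [ex]

theorem g1_par : GPar g1 := by
  intro l a b x
  have e2 : Real.exp (4 * x 0) * Real.exp (-x 0) = Real.exp (3 * x 0) := by
    rw [← Real.exp_add]; ring_nf
  simp only [Fin.sum_univ_four]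
  fin_cases l <;> fin_cases a <;> fin_cases b <;> simp [gam, g1, pd_ex] <;> simp [ex] <;>
    first
    | ring1
    | linear_combination (3 / 2) * e2
    | linear_combination (-3 / 2) * e2

theorem g2_par : GPar g2 := by
  intro l a b x
  simp only [Fin.sum_univ_four]
  fin_cases l <;> fin_cases a <;> fin_cases b <;> simp [gam, g2, pd_ex] <;> simp [ex] <;>
    first
    | ring1

theorem g1_dif (a b : Fin 4) : Differentiable ℝ (g1 a b) := by
  unfold g1; split_ifs <;> exact dif_ex _ _ _

theorem g2_dif (a b : Fin 4) : Differentiable ℝ (g2 a b) := by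
  unfold g2; split_ifs <;> exact dif_ex _ _ _

theorem PT_dif {c : Fin 4 → Fin 4 → ℝ} {g : Fin 4 → Fin 4 → Eu 4 → ℝ}
    (hg : ∀ a b, Differentiable ℝ (g a b)) : Dif (PT c g) := by
  intro α I
  match I with
  | [] => exact differentiable_const _
  | [_] => exact differentiable_const _
  | [_, _] => exact differentiable_const _
  | [β, μ, ν] => exact ((hg β ν).const_mul (c α μ)).sub ((hg β μ).const_mul (c α ν))
  | _ :: _ :: _ :: _ :: _ => exact differentiable_const _

theorem PT_len {c : Fin 4 → Fin 4 → ℝ} {g : Fin 4 → Fin 4 → Eu 4 → ℝ} (α : Fin 4)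
    (I : List (Fin 4)) (h : I.length ≠ 3) : PT c g α I = fun _ => 0 := by
  match I with
  | [] => rfl
  | [_] => rfl
  | [_, _] => rfl
  | [β, μ, ν] => simp at h
  | _ :: _ :: _ :: _ :: _ => rfl

theorem cov_PT {c : Fin 4 → Fin 4 → ℝ} {g : Fin 4 → Fin 4 → Eu 4 → ℝ}
    (hg : ∀ a b, Differentiable ℝ (g a b)) (hc : CPar c) (hp : GPar g) :
    cov gE (PT c g) = fun _ _ _ => 0 := by
  funext α L x
  cases L with
  | nil => rfl
  | cons l I =>
    by_cases h : I.length = 3
    · match I with
      | [β, μ, ν] =>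
        have h1 : pd l (PT c g α [β, μ, ν]) x = c α μ * pd l (g β ν) x - c α ν * pd l (g β μ) x := by
          have e : PT c g α [β, μ, ν] = fun x => c α μ * g β ν x - c α ν * g β μ x := rfl
          rw [e, pd_sub' ((hg β ν).const_mul _) ((hg β μ).const_mul _),
            pd_mul' (differentiable_const _) (hg β ν), pd_mul' (differentiable_const _) (hg β μ),
            pd_c, pd_c]
          ring
        simp only [cov, low, PT, h1, Gam_gE]
        have a1 := hp l β ν x
        have a2 := hp l β μ x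
        have a3 := hc l α μ x
        have a4 := hc l α ν x
        simp only [Fin.sum_univ_four] at a1 a2 a3 a4 ⊢
        linear_combination c α μ * a1 - c α ν * a2 + g β ν x * a3 - g β μ x * a4
    · simp only [cov]
      rw [PT_len α I h, pd_c]
      have e : ∀ σ, PT c g σ I x = 0 := fun σ => by rw [PT_len σ I h]
      simp only [e, mul_zero, Finset.sum_const_zero, zero_add, zero_sub, neg_eq_zero]
      apply low_zero
      intro J hJ
      rw [PT_len α J (by rw [hJ]; exact h)]

end Pool.Agent.V11202.KS
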