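import Pool.Agent.V11202.CK.Geo

set_option autoImplicit false

open scoped ContDiff Topology
open Pool.Agent.V11202.CK

namespace Pool.Agent.V11202.KS

/-- components of tensor fields with one upper index and any number of lower indices -/
abbrev Tens (n : ℕ) : Type := Fin n → List (Fin n) → Eu n → ℝ

/-- curvature components
`R^α_{βμν} = ∂_μ Γ^α_{νβ} - ∂_ν Γ^α_{μβ} + Γ^α_{μσ} Γ^σ_{νβ} - Γ^α_{νσ} Γ^σ_{μβ}` -/
noncomputable def Riem {n : ℕ} (G : Eu n → Mt n) (α β μ ν : Fin n) (x : Eu n) : ℝ :=
  pd μ (Gam G α ν β) x - pd ν (Gam G α μ β) x +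
    ∑ σ, (Gam G α μ σ x * Gam G σ ν β x - Gam G α ν σ x * Gam G σ μ β x)

/-- the curvature tensor as a tensor field with three lower indices -/
noncomputable def RT {n : ℕ} (G : Eu n → Mt n) : Tens n := fun α I x =>
  match I with
  | [β, μ, ν] => Riem G α β μ ν x
  | _ => 0

/-- `low c F [i₁, …, i_k] = ∑_j ∑_σ c σ i_j * F [i₁, …, σ, …, i_k]` (`σ` in place of `i_j`) -/
noncomputable def low {n : ℕ} (c : Fin n → Fin n → ℝ) : (List (Fin n) → ℝ) → List (Fin n) → ℝ
  | _, [] => 0
  | F, i :: I => ∑ σ, c σ i * F (σ :: I) + low c (fun J => F (i :: J)) I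

/-- covariant derivative: `(∇T)^α_{l i₁ … i_k} = ∇_l T^α_{i₁ … i_k}
  = ∂_l T^α_{i₁…i_k} + Γ^α_{lσ} T^σ_{i₁…i_k} - ∑_j Γ^σ_{l i_j} T^α_{i₁…σ…i_k}` -/
noncomputable def cov {n : ℕ} (G : Eu n → Mt n) (T : Tens n) : Tens n := fun α L x =>
  match L with
  | [] => 0
  | l :: I => pd l (T α I) x + ∑ σ, Gam G α l σ x * T σ I x -
      low (fun σ i => Gam G σ l i x) (fun J => T α J x) I

/-- the iterated covariant derivative `∇^r R` -/
noncomputable def nab {n : ℕ} (G : Eu n → Mt n) : ℕ → Tens n
  | 0 => RT G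
  | r + 1 => cov G (nab G r)

/-- `G` is a `KS_n` metric of order `r` on `ℝ^n` with the covariant tensors `t^{(m)}` given by
their components `t m [λ₁, …, λ_m]` -/
structure IsKS {n : ℕ} (G : Eu n → Mt n) (r : ℕ) (t : ℕ → List (Fin n) → Eu n → ℝ) : Prop where
  smooth : ∀ m I, ContDiff ℝ ∞ (t m I)
  eq : ∀ (x : Eu n) (α : Fin n) (L : List (Fin n)), L.length = r + 3 →
    nab G r α L x + ∑ m ∈ Finset.Icc 1 r, t m (L.take m) x * nab G (r - m) α (L.drop m) x = 0

/-- smooth Riemannian metric on `ℝ^n` -/
structure IsRiem {n : ℕ} (G : Eu n → Mt n) : Prop where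
  smooth : ∀ i j, ContDiff ℝ ∞ (fun x => G x i j)
  posDef : ∀ x, (G x).PosDef

variable {n : ℕ} {G : Eu n → Mt n}

theorem low_smul (c : Fin n → Fin n → ℝ) (a : ℝ) (I : List (Fin n)) :
    ∀ F : List (Fin n) → ℝ, low c (fun J => a * F J) I = a * low c F I := by
  induction I with
  | nil => intro F; simp [low]
  | cons i I ih =>
    intro F
    simp only [low]
    rw [ih (fun J => F (i :: J)), mul_add, Finset.mul_sum]
    congr 1
    exact Finset.sum_congr rfl fun σ _ => by ring

theorem low_sub (c : Fin n → Fin n → ℝ) (I : List (Fin n)) :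
    ∀ F H : List (Fin n) → ℝ, low c (fun J => F J - H J) I = low c F I - low c H I := by
  induction I with
  | nil => intro F H; simp [low]
  | cons i I ih =>
    intro F H
    simp only [low]
    rw [ih (fun J => F (i :: J)) (fun J => H (i :: J))]
    simp only [mul_sub, Finset.sum_sub_distrib]
    ring

theorem low_zero (c : Fin n → Fin n → ℝ) (I : List (Fin n)) :
    ∀ F : List (Fin n) → ℝ, (∀ J, J.length = I.length → F J = 0) → low c F I = 0 := by
  induction I with
  | nil => intro F _; simp [low]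
  | cons i I ih =>
    intro F hF
    simp only [low]
    rw [ih (fun J => F (i :: J)) (fun J hJ => hF _ (by simp [hJ])), add_zero]
    exact Finset.sum_eq_zero fun σ _ => by rw [hF _ (by simp), mul_zero]

/-- function times tensor -/
noncomputable def fT (f : Eu n → ℝ) (S : Tens n) : Tens n := fun α I x => f x * S α I x

/-- one-form times tensor -/
noncomputable def oT (w : Fin n → Eu n → ℝ) (S : Tens n) : Tens n := fun α L x =>
  match L with
  | [] => 0
  | l :: I => w l x * S α I x

/-- two-tensor times tensor -/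
noncomputable def hT (w : Fin n → Fin n → Eu n → ℝ) (S : Tens n) : Tens n := fun α L x =>
  match L with
  | a :: b :: I => w a b x * S α I x
  | _ => 0

/-- all components differentiable -/
def Dif (S : Tens n) : Prop := ∀ α I, Differentiable ℝ (S α I)

theorem pd_mul' {f g : Eu n → ℝ} (hf : Differentiable ℝ f) (hg : Differentiable ℝ g) (i : Fin n)
    (x : Eu n) : pd i (fun y => f y * g y) x = pd i f x * g x + f x * pd i g x := by
  rw [pd, fderiv_fun_mul (hf x) (hg x)]
  simp only [_root_.add_apply, _root_.smul_apply, smul_eq_mul, pd]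
  ring

theorem pd_sub' {f g : Eu n → ℝ} (hf : Differentiable ℝ f) (hg : Differentiable ℝ g) (i : Fin n)
    (x : Eu n) : pd i (fun y => f y - g y) x = pd i f x - pd i g x := by
  rw [pd, fderiv_fun_sub (hf x) (hg x)]
  rfl

theorem pd_c (i : Fin n) (c : ℝ) (x : Eu n) : pd i (fun _ => c) x = 0 := by
  simp [pd]

theorem cov_sub {S T : Tens n} (hS : Dif S) (hT : Dif T) :
    cov G (fun α I x => S α I x - T α I x) =
      fun α I x => cov G S α I x - cov G T α I x := by
  funext α L x
  cases L with
  | nil => simp [cov]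
  | cons l I =>
    simp only [cov]
    rw [low_sub]
    have : pd l (fun x => S α I x - T α I x) x = _ := pd_sub' (hS α I) (hT α I) l x
    rw [this]
    simp only [mul_sub, Finset.sum_sub_distrib]
    ring

theorem cov_fT {f : Eu n → ℝ} {S : Tens n} (hf : Differentiable ℝ f) (hS : Dif S)
    (h0 : cov G S = fun _ _ _ => 0) : cov G (fT f S) = oT (fun l => pd l f) S := by
  funext α L x
  cases L with
  | nil => simp [cov, oT]
  | cons l I =>
    have h1 : cov G S α (l :: I) x = 0 := by rw [h0]
    simp only [cov] at h1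
    simp only [cov, oT, fT]
    rw [low_smul]
    have : pd l (fT f S α I) x = _ := pd_mul' hf (hS α I) l x
    rw [this]
    have e : ∑ σ, Gam G α l σ x * (f x * S σ I x) = f x * ∑ σ, Gam G α l σ x * S σ I x := by
      rw [Finset.mul_sum]; exact Finset.sum_congr rfl fun σ _ => by ring
    rw [e]
    linear_combination f x * h1

theorem cov_oT {w : Fin n → Eu n → ℝ} {S : Tens n} (hf : ∀ i, Differentiable ℝ (w i))
    (hS : Dif S) (h0 : cov G S = fun _ _ _ => 0) : cov G (oT w S) =
      hT (fun l a x => pd l (w a) x - ∑ σ, Gam G σ l a x * w σ x) S := by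
  funext α L x
  match L with
  | [] => simp [cov, hT]
  | [l] =>
    have h2 : pd l (oT w S α []) x = 0 := pd_c l 0 x
    simp only [cov, hT, low]
    rw [h2]
    simp [oT]
  | l :: a :: I =>
    have h1 : cov G S α (l :: I) x = 0 := by rw [h0]
    simp only [cov] at h1
    simp only [cov, hT, oT, low]
    rw [low_smul]
    have : pd l (oT w S α (a :: I)) x = _ := pd_mul' (hf a) (hS α I) l x
    rw [this]
    have e : ∑ σ, Gam G α l σ x * (w a x * S σ I x) = w a x * ∑ σ, Gam G α l σ x * S σ I x := by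
      rw [Finset.mul_sum]; exact Finset.sum_congr rfl fun σ _ => by ring
    have e2 : ∑ σ, Gam G σ l a x * (w σ x * S α I x) = (∑ σ, Gam G σ l a x * w σ x) * S α I x := by
      rw [Finset.sum_mul]; exact Finset.sum_congr rfl fun σ _ => by ring
    rw [e, e2]
    linear_combination w a x * h1

theorem cov_hT {w : Fin n → Fin n → Eu n → ℝ} {S : Tens n}
    (hf : ∀ i j, Differentiable ℝ (w i j)) (hS : Dif S) (h0 : cov G S = fun _ _ _ => 0)
    (hw : ∀ l a b x, pd l (w a b) x - ∑ σ, Gam G σ l a x * w σ b x -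
      ∑ σ, Gam G σ l b x * w a σ x = 0) : cov G (hT w S) = fun _ _ _ => 0 := by
  funext α L x
  match L with
  | [] => simp [cov]
  | [l] =>
    have h2 : pd l (hT w S α []) x = 0 := pd_c l 0 x
    simp only [cov, low]
    rw [h2]
    simp [hT]
  | [l, a] =>
    have h2 : pd l (hT w S α [a]) x = 0 := pd_c l 0 x
    simp only [cov, low]
    rw [h2]
    simp [hT]
  | l :: a :: b :: I =>
    have h1 : cov G S α (l :: I) x = 0 := by rw [h0]
    simp only [cov] at h1
    simp only [cov, hT, low]
    rw [low_smul]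
    have : pd l (hT w S α (a :: b :: I)) x = _ := pd_mul' (hf a b) (hS α I) l x
    rw [this]
    have e : ∑ σ, Gam G α l σ x * (w a b x * S σ I x) =
        w a b x * ∑ σ, Gam G α l σ x * S σ I x := by
      rw [Finset.mul_sum]; exact Finset.sum_congr rfl fun σ _ => by ring
    have e2 : ∑ σ, Gam G σ l a x * (w σ b x * S α I x) =
        (∑ σ, Gam G σ l a x * w σ b x) * S α I x := by
      rw [Finset.sum_mul]; exact Finset.sum_congr rfl fun σ _ => by ring
    have e3 : ∑ σ, Gam G σ l b x * (w a σ x * S α I x) =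
        (∑ σ, Gam G σ l b x * w a σ x) * S α I x := by
      rw [Finset.sum_mul]; exact Finset.sum_congr rfl fun σ _ => by ring
    rw [e, e2, e3]
    linear_combination w a b x * h1 + S α I x * hw l a b x

end Pool.Agent.V11202.KS
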