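import Pool.Agent.V11202.KS.Defs

set_option autoImplicit false
set_option linter.unnecessarySeqFocus false
set_option linter.unusedSimpArgs false
set_option linter.unreachableTactic false
set_option linter.unusedTactic false

open scoped ContDiff Topology
open Pool.Agent.V11202.CK

namespace Pool.Agent.V11202.KS

/-- the diagonal entries of the metric -/
noncomputable def gd (x : Eu 4) : Fin 4 → ℝ :=
  ![Real.exp (-x 0), Real.exp (3 * x 0), 1, Real.exp (2 * x 2)]

/-- the metric `e^{-s} ds² + e^{3s} dθ² + dw² + e^{2w} du²` on `ℝ⁴` with coordinates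
`(s, θ, w, u)` -/
noncomputable def gE (x : Eu 4) : Mt 4 := Matrix.diagonal (gd x)

theorem gd_pos (x : Eu 4) (i : Fin 4) : 0 < gd x i := by
  fin_cases i <;> simp [gd, Real.exp_pos]

theorem pd_exp (i j : Fin 4) (c a : ℝ) (x : Eu 4) :
    pd i (fun v => c * Real.exp (a * v j)) x = if i = j then c * (a * Real.exp (a * x j)) else 0 := by
  have h0 : HasFDerivAt (fun v : Eu 4 => v j) (ContinuousLinearMap.proj (R := ℝ)
      (φ := fun _ : Fin 4 => ℝ) j) x := hasFDerivAt_apply j x
  have h1 := ((h0.const_mul a).exp).const_mul c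
  rw [pd, h1.fderiv]
  simp only [_root_.smul_apply, ContinuousLinearMap.proj_apply, Pi.single_apply, smul_eq_mul]
  split_ifs with h h' h'
  · ring
  · exact absurd h.symm h'
  · exact absurd h'.symm h
  · ring

theorem dif_exp (j : Fin 4) (c a : ℝ) : Differentiable ℝ (fun v : Eu 4 => c * Real.exp (a * v j)) := by
  intro x
  have h0 : HasFDerivAt (fun v : Eu 4 => v j) (ContinuousLinearMap.proj (R := ℝ)
      (φ := fun _ : Fin 4 => ℝ) j) x := hasFDerivAt_apply j x
  exact (((h0.const_mul a).exp).const_mul c).differentiableAt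

theorem cd_exp (j : Fin 4) (c a : ℝ) : ContDiff ℝ ∞ (fun v : Eu 4 => c * Real.exp (a * v j)) :=
  contDiff_const.mul (contDiff_const.mul (contDiff_apply ℝ ℝ j)).exp

/-- coefficient functions `c e^{a x_j}` -/
noncomputable def ex (c a : ℝ) (j : Fin 4) (v : Eu 4) : ℝ := c * Real.exp (a * v j)

/-- the entries of the metric -/
theorem gE_entry (i j : Fin 4) : (fun y => gE y i j) =
    if i = j then (if i = 0 then ex 1 (-1) 0 else if i = 1 then ex 1 3 0 else
      if i = 2 then ex 1 0 0 else ex 1 2 2) else ex 0 0 0 := by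
  funext y
  fin_cases i <;> fin_cases j <;> simp [gE, gd, ex]

theorem pd_gE (l i j : Fin 4) (x : Eu 4) : pd l (fun y => gE y i j) x =
    if i = j then (if i = 0 ∧ l = 0 then -Real.exp (-x 0) else if i = 1 ∧ l = 0 then
      3 * Real.exp (3 * x 0) else if i = 3 ∧ l = 2 then 2 * Real.exp (2 * x 2) else 0) else 0 := by
  rw [gE_entry]
  have h : ∀ c a k, pd l (ex c a k) x = _ := fun c a k => pd_exp l k c a x
  fin_cases i <;> fin_cases j <;> simp [h] <;> fin_cases l <;> simp

theorem gE_inv (x : Eu 4) : (gE x)⁻¹ =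
    Matrix.diagonal ![Real.exp (x 0), Real.exp (-3 * x 0), 1, Real.exp (-2 * x 2)] := by
  apply Matrix.inv_eq_left_inv
  rw [gE, Matrix.diagonal_mul_diagonal, ← Matrix.diagonal_one]
  congr 1
  funext i
  fin_cases i <;> simp [gd, ← Real.exp_add]

/-- explicit Christoffel symbols -/
noncomputable def gam (k i j : Fin 4) : Eu 4 → ℝ :=
  if k = 0 ∧ i = 0 ∧ j = 0 then ex (-1 / 2) 0 0
  else if k = 0 ∧ i = 1 ∧ j = 1 then ex (-3 / 2) 4 0
  else if k = 1 ∧ ((i = 0 ∧ j = 1) ∨ (i = 1 ∧ j = 0)) then ex (3 / 2) 0 0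
  else if k = 2 ∧ i = 3 ∧ j = 3 then ex (-1) 2 2
  else if k = 3 ∧ ((i = 2 ∧ j = 3) ∨ (i = 3 ∧ j = 2)) then ex 1 0 0
  else ex 0 0 0

theorem Gam_gE (k i j : Fin 4) : Gam gE k i j = gam k i j := by
  funext x
  have e1 : Real.exp (x 0) * Real.exp (-x 0) = 1 := by rw [← Real.exp_add]; simp
  have e2 : Real.exp (x 0) * Real.exp (3 * x 0) = Real.exp (4 * x 0) := by
    rw [← Real.exp_add]; ring_nf
  have e3 : Real.exp (-(3 * x 0)) * Real.exp (3 * x 0) = 1 := by rw [← Real.exp_add]; simp
  have e4 : Real.exp (-(2 * x 2)) * Real.exp (2 * x 2) = 1 := by rw [← Real.exp_add]; simp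
  simp only [Gam, gE_inv, pd_gE, Fin.sum_univ_four, gam]
  fin_cases k <;> fin_cases i <;> fin_cases j <;> simp [ex] <;>
    first
    | ring1
    | linear_combination (-(1 / 2 : ℝ)) * e1
    | linear_combination (-(3 / 2 : ℝ)) * e2
    | linear_combination (3 / 2 : ℝ) * e3
    | linear_combination e4

theorem gE_riem : IsRiem gE := by
  refine ⟨fun i j => ?_, fun x => ?_⟩
  · rw [gE_entry]
    have h : ∀ c a k, ContDiff ℝ ∞ (ex c a k) := fun c a k => cd_exp k c a
    split_ifs <;> exact h _ _ _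
  · rw [gE, Matrix.posDef_diagonal_iff]
    exact gd_pos x

end Pool.Agent.V11202.KS
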