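import Pool.Agent.V11202.KS.Curv

set_option autoImplicit false
set_option linter.unnecessarySeqFocus false
set_option linter.unusedSimpArgs false
set_option linter.unreachableTactic false
set_option linter.unusedTactic false

open scoped ContDiff Topology
open Pool.Agent.V11202.CK

namespace Pool.Agent.V11202.KS

/-- `dK` -/
noncomputable def w1 (l : Fin 4) : Eu 4 → ℝ := if l = 0 then ex (-3) 1 0 else ex 0 0 0

theorem w1_dif (a : Fin 4) : Differentiable ℝ (w1 a) := by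
  unfold w1; split_ifs <;> exact dif_ex _ _ _

theorem pd_Kf (l : Fin 4) : pd l Kf = w1 l := by
  funext x
  rw [Kf, pd_ex, w1]
  split_ifs <;> simp [ex]

/-- the abbreviation for the parallel tensor of the first factor -/
noncomputable abbrev P1 : Tens 4 := PT c1 g1

/-- `φ` with `∇∇K = φ g₁` -/
noncomputable def ph : Eu 4 → ℝ := ex (-9 / 2) 2 0

theorem Kf_dif : Differentiable ℝ Kf := dif_ex _ _ _

theorem ph_dif : Differentiable ℝ ph := dif_ex _ _ _

theorem P1_dif : Dif P1 := PT_dif g1_dif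

theorem cov_P1 : cov gE P1 = fun _ _ _ => 0 := cov_PT g1_dif c1_par g1_par

theorem fT_dif {f : Eu 4 → ℝ} {S : Tens 4} (hf : Differentiable ℝ f) (hS : Dif S) :
    Dif (fT f S) := fun α I => hf.mul (hS α I)

theorem nab1 : nab gE 1 = oT w1 P1 := by
  show cov gE (RT gE) = _
  rw [RT_gE, cov_sub (fT_dif Kf_dif P1_dif) (PT_dif g2_dif),
    cov_fT Kf_dif P1_dif cov_P1, cov_PT g2_dif c2_par g2_par]
  funext α I x
  have : (fun l => pd l Kf) = w1 := funext pd_Kf
  simp only [sub_zero, this]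

theorem hess_K (l a : Fin 4) (x : Eu 4) :
    pd l (w1 a) x - ∑ σ, Gam gE σ l a x * w1 σ x = ph x * g1 l a x := by
  have e1 : Real.exp (x 0) = Real.exp (2 * x 0) * Real.exp (-x 0) := by
    rw [← Real.exp_add]; ring_nf
  have e2 : Real.exp (4 * x 0) * Real.exp (x 0) = Real.exp (2 * x 0) * Real.exp (3 * x 0) := by
    rw [← Real.exp_add, ← Real.exp_add]; ring_nf
  simp only [Gam_gE, Fin.sum_univ_four]
  fin_cases l <;> fin_cases a <;> simp [gam, w1, g1, ph, pd_ex] <;> simp [ex] <;>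
    first
    | ring1
    | linear_combination (-9 / 2) * e1
    | linear_combination (-9 / 2) * e2

theorem nab2 : nab gE 2 = fT ph (hT g1 P1) := by
  show cov gE (nab gE 1) = _
  rw [nab1, cov_oT w1_dif P1_dif cov_P1]
  funext α L x
  match L with
  | [] => simp [hT, fT]
  | [_] => simp [hT, fT]
  | l :: a :: I =>
    simp only [hT, fT, hess_K]
    ring

theorem hT_dif : Dif (hT g1 P1) := by
  intro α L
  match L with
  | [] => exact differentiable_const _
  | [_] => exact differentiable_const _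
  | a :: b :: I => exact (g1_dif a b).mul (P1_dif α I)

theorem nab3 : nab gE 3 = oT (fun l => pd l ph) (hT g1 P1) := by
  show cov gE (nab gE 2) = _
  rw [nab2, cov_fT ph_dif hT_dif]
  apply cov_hT g1_dif P1_dif cov_P1
  intro l a b x
  have := g1_par l a b x
  simp only [Gam_gE]
  exact this

/-- the one-form `-2 ds` -/
noncomputable def tE (m : ℕ) (I : List (Fin 4)) : Eu 4 → ℝ :=
  if m = 1 ∧ I = [0] then fun _ => -2 else fun _ => 0

theorem gE_KS : IsKS gE 3 tE := by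
  refine ⟨fun m I => ?_, fun x α L hL => ?_⟩
  · unfold tE; split_ifs <;> exact contDiff_const
  · have hs : Finset.Icc 1 3 = {1, 2, 3} := by decide
    rw [hs, Finset.sum_insert (by simp), Finset.sum_insert (by simp), Finset.sum_singleton]
    have z2 : tE 2 (L.take 2) x = 0 := by simp [tE]
    have z3 : tE 3 (L.take 3) x = 0 := by simp [tE]
    rw [z2, z3]
    match L with
    | [] => simp at hL
    | l :: I =>
      rw [nab3]
      show _ + (tE 1 [l] x * nab gE 2 α I x + _) = 0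
      rw [nab2]
      simp only [oT, fT]
      have : pd l ph x = (if l = 0 then 2 else 0) * ph x := by
        rw [ph, pd_ex]
        split_ifs <;> simp [ex]
        ring
      rw [this]
      by_cases hl : l = 0
      · subst hl
        simp [tE]
        ring
      · simp [tE, hl]

theorem P1_val (x : Eu 4) : P1 0 [1, 0, 1] x = Real.exp (3 * x 0) := by
  simp [P1, PT, c1, g1, ex]

theorem nab1_ne (x : Eu 4) : nab gE 1 0 [0, 1, 0, 1] x ≠ 0 := by
  rw [nab1]
  show w1 0 x * P1 0 [1, 0, 1] x ≠ 0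
  rw [P1_val]
  simp [w1, ex]

theorem RT_val (x : Eu 4) : nab gE 0 2 [3, 2, 3] x ≠ 0 := by
  show RT gE 2 [3, 2, 3] x ≠ 0
  rw [RT_gE]
  simp [fT, PT, c1, g1, c2, g2, ex]

theorem not_rec1 (x : Eu 4) : ¬ ∃ t : Fin 4 → ℝ, ∀ (α : Fin 4) (l : Fin 4) (I : List (Fin 4)),
    I.length = 3 → nab gE 1 α (l :: I) x = t l * nab gE 0 α I x := by
  rintro ⟨t, ht⟩
  have h1 := ht 2 0 [3, 2, 3] rfl
  have h2 := ht 0 0 [1, 0, 1] rfl
  have h3 : nab gE 1 2 [0, 3, 2, 3] x = 0 := by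
    rw [nab1]; simp [oT, P1, PT, c1, g1, ex]
  rw [h3] at h1
  have h4 : t 0 = 0 := by
    rcases mul_eq_zero.1 h1.symm with h | h
    · exact h
    · exact absurd h (RT_val x)
  rw [h4, zero_mul] at h2
  exact nab1_ne x h2

theorem not_rec2 (x : Eu 4) : ¬ ∃ t : Fin 4 → Fin 4 → ℝ, ∀ (α : Fin 4) (l m : Fin 4)
    (I : List (Fin 4)), I.length = 3 → nab gE 2 α (l :: m :: I) x = t l m * nab gE 0 α I x := by
  rintro ⟨t, ht⟩
  have h1 := ht 2 0 0 [3, 2, 3] rfl
  have h2 := ht 0 0 0 [1, 0, 1] rfl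
  have h3 : nab gE 2 2 [0, 0, 3, 2, 3] x = 0 := by
    rw [nab2]; simp [fT, hT, P1, PT, c1, g1, ex]
  rw [h3] at h1
  have h4 : t 0 0 = 0 := by
    rcases mul_eq_zero.1 h1.symm with h | h
    · exact h
    · exact absurd h (RT_val x)
  rw [h4, zero_mul, nab2] at h2
  have h5 : ph x * (g1 0 0 x * P1 0 [1, 0, 1] x) = 0 := h2
  rw [P1_val] at h5
  simp [ph, g1, ex] at h5

theorem not_rec3 (x : Eu 4) : ¬ ∃ t : Fin 4 → Fin 4 → Fin 4 → ℝ, ∀ (α : Fin 4)
    (l m k : Fin 4) (I : List (Fin 4)), I.length = 3 →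
      nab gE 3 α (l :: m :: k :: I) x = t l m k * nab gE 0 α I x := by
  rintro ⟨t, ht⟩
  have h1 := ht 2 0 0 0 [3, 2, 3] rfl
  have h2 := ht 0 0 0 0 [1, 0, 1] rfl
  have h3 : nab gE 3 2 [0, 0, 0, 3, 2, 3] x = 0 := by
    rw [nab3]; simp [oT, hT, P1, PT, c1, g1, ex]
  rw [h3] at h1
  have h4 : t 0 0 0 = 0 := by
    rcases mul_eq_zero.1 h1.symm with h | h
    · exact h
    · exact absurd h (RT_val x)
  rw [h4, zero_mul, nab3] at h2
  have h5 : pd 0 ph x * (g1 0 0 x * P1 0 [1, 0, 1] x) = 0 := h2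
  rw [P1_val, ph, pd_ex] at h5
  simp [g1, ex] at h5

theorem Ric_val (β ν : Fin 4) (x : Eu 4) :
    ∑ α, Riem gE α β α ν x = Kf x * g1 β ν x - g2 β ν x := by
  simp only [Riem_gE, Fin.sum_univ_four]
  fin_cases β <;> fin_cases ν <;> simp [c1, c2, g1, g2] <;> simp [ex] <;> ring

theorem Ric_neg (x v : Eu 4) (hv : v ≠ 0) :
    ∑ β, ∑ ν, (∑ α, Riem gE α β α ν x) * (v β * v ν) < 0 := by
  simp only [Ric_val]
  simp only [Fin.sum_univ_four]
  simp [g1, g2, Kf, ex]
  have e0 := Real.exp_pos (x 0)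
  have e1 := Real.exp_pos (-x 0)
  have e3 := Real.exp_pos (3 * x 0)
  have e2 := Real.exp_pos (2 * x 2)
  have hq : 0 < v 0 ^ 2 + v 1 ^ 2 + v 2 ^ 2 + v 3 ^ 2 := by
    by_contra hc
    apply hv
    have h0 : v 0 ^ 2 = 0 := by nlinarith [sq_nonneg (v 0), sq_nonneg (v 1), sq_nonneg (v 2), sq_nonneg (v 3)]
    have h1 : v 1 ^ 2 = 0 := by nlinarith [sq_nonneg (v 0), sq_nonneg (v 1), sq_nonneg (v 2), sq_nonneg (v 3)]
    have h2 : v 2 ^ 2 = 0 := by nlinarith [sq_nonneg (v 0), sq_nonneg (v 1), sq_nonneg (v 2), sq_nonneg (v 3)]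
    have h3 : v 3 ^ 2 = 0 := by nlinarith [sq_nonneg (v 0), sq_nonneg (v 1), sq_nonneg (v 2), sq_nonneg (v 3)]
    funext i
    fin_cases i
    · exact pow_eq_zero_iff (two_ne_zero) |>.1 h0
    · exact pow_eq_zero_iff (two_ne_zero) |>.1 h1
    · exact pow_eq_zero_iff (two_ne_zero) |>.1 h2
    · exact pow_eq_zero_iff (two_ne_zero) |>.1 h3
  have p0 : 0 < 3 * Real.exp (x 0) * Real.exp (-x 0) := by positivity
  have p1 : 0 < 3 * Real.exp (x 0) * Real.exp (3 * x 0) := by positivity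
  obtain ⟨m, hm, m0, m1, m2, m3⟩ : ∃ m : ℝ, 0 < m ∧ m ≤ 3 * Real.exp (x 0) * Real.exp (-x 0) ∧
      m ≤ 3 * Real.exp (x 0) * Real.exp (3 * x 0) ∧ m ≤ 1 ∧ m ≤ Real.exp (2 * x 2) := by
    refine ⟨min (min (3 * Real.exp (x 0) * Real.exp (-x 0))
      (3 * Real.exp (x 0) * Real.exp (3 * x 0))) (min 1 (Real.exp (2 * x 2))),
      ?_, ?_, ?_, ?_, ?_⟩
    · exact lt_min (lt_min p0 p1) (lt_min one_pos e2)
    · exact (min_le_left _ _).trans (min_le_left _ _)
    · exact (min_le_left _ _).trans (min_le_right _ _)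
    · exact (min_le_right _ _).trans (min_le_left _ _)
    · exact (min_le_right _ _).trans (min_le_right _ _)
  have q0 := mul_nonneg (sub_nonneg.2 m0) (sq_nonneg (v 0))
  have q1 := mul_nonneg (sub_nonneg.2 m1) (sq_nonneg (v 1))
  have q2 := mul_nonneg (sub_nonneg.2 m2) (sq_nonneg (v 2))
  have q3 := mul_nonneg (sub_nonneg.2 m3) (sq_nonneg (v 3))
  have q4 := mul_pos hm hq
  nlinarith

end Pool.Agent.V11202.KS
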